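import Mathlib

set_option autoImplicit false
set_option linter.unusedSectionVars false

open Finset

namespace Pool.Agent.Lib.MP_076764_co

/-- An oriented simple graph with arc type `A` and vertex type `V`. -/
structure Dig (A V : Type*) where
  t : A → V
  h : A → V
  ne : ∀ e, t e ≠ h e
  simple : ∀ e f, (t e = t f ∧ h e = h f) ∨ (t e = h f ∧ h e = t f) → e = f

variable {A V : Type*} [Fintype A] [DecidableEq A] [Fintype V] [DecidableEq V]

namespace Dig

variable (D : Dig A V)

/-- signed incidence -/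
def ep (e : A) (x : V) : ℝ := (if D.t e = x then 1 else 0) - (if D.h e = x then 1 else 0)

/-- oriented sum -/
def s (l : A → ℝ) (x : V) : ℝ := ∑ e, D.ep e x * l e

lemma ep_t (e : A) : D.ep e (D.t e) = 1 := by
  simp [ep, (D.ne e).symm]

lemma ep_h (e : A) : D.ep e (D.h e) = -1 := by
  simp [ep, D.ne e]

lemma ep_other {e : A} {x : V} (h1 : x ≠ D.t e) (h2 : x ≠ D.h e) : D.ep e x = 0 := by
  simp [ep, h1.symm, h2.symm]

lemma s_swap (l : A → ℝ) {e f : A} (hef : e ≠ f) (x : V) :
    D.s (l ∘ Equiv.swap e f) x = D.s l x + D.ep e x * (l f - l e) + D.ep f x * (l e - l f) := by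
  have h1 : ∑ g, (D.ep g x * (l ∘ Equiv.swap e f) g - D.ep g x * l g) =
      (D.ep e x * (l ∘ Equiv.swap e f) e - D.ep e x * l e) +
        (D.ep f x * (l ∘ Equiv.swap e f) f - D.ep f x * l f) := by
    apply Finset.sum_eq_add e f hef
    · intro c _ hc
      simp [Equiv.swap_apply_of_ne_of_ne hc.1 hc.2]
    · simp
    · simp
  rw [Finset.sum_sub_distrib] at h1
  have h2 : D.s (l ∘ Equiv.swap e f) x - D.s l x = _ := h1
  simp only [Function.comp_apply, Equiv.swap_apply_left, Equiv.swap_apply_right] at h2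
  linarith

/-- arcs incident to a vertex of `T` -/
def inc (T : Finset V) : Finset A := univ.filter fun e => D.t e ∈ T ∨ D.h e ∈ T

lemma mem_inc {T : Finset V} {e : A} : e ∈ D.inc T ↔ D.t e ∈ T ∨ D.h e ∈ T := by
  simp [inc]

lemma inc_single (x : V) : (D.inc {x}).card ≤ Fintype.card V := by
  rw [← Finset.card_univ]
  apply Finset.card_le_card_of_injOn (fun e => if D.t e = x then D.h e else D.t e)
  · intro e _; simp
  · intro e he f hf hef
    rw [Finset.mem_coe, mem_inc] at he hf
    simp only [Finset.mem_singleton] at he hf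
    simp only at hef
    apply D.simple
    by_cases h1 : D.t e = x <;> by_cases h2 : D.t f = x
    · rw [if_pos h1, if_pos h2] at hef
      left; exact ⟨h1.trans h2.symm, hef⟩
    · rw [if_pos h1, if_neg h2] at hef
      right; exact ⟨h1.trans (hf.resolve_left h2).symm, hef⟩
    · rw [if_neg h1, if_pos h2] at hef
      right; exact ⟨hef, (he.resolve_left h1).trans h2.symm⟩
    · rw [if_neg h1, if_neg h2] at hef
      left; exact ⟨hef, (he.resolve_left h1).trans (hf.resolve_left h2).symm⟩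

lemma inc_card (T : Finset V) : (D.inc T).card ≤ T.card * Fintype.card V := by
  have h1 : D.inc T = T.biUnion fun x => D.inc {x} := by
    ext e
    simp only [mem_inc, Finset.mem_biUnion, Finset.mem_singleton]
    constructor
    · rintro (h | h)
      · exact ⟨_, h, Or.inl rfl⟩
      · exact ⟨_, h, Or.inr rfl⟩
    · rintro ⟨x, hx, h | h⟩
      · left; rwa [h]
      · right; rwa [h]
  rw [h1]
  exact Finset.card_biUnion_le_card_mul _ _ _ fun x _ => D.inc_single x

lemma inc_union (S T : Finset V) : (D.inc (S ∪ T)).card ≤ (D.inc S).card + (D.inc T).card := by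
  refine le_trans (Finset.card_le_card ?_) (Finset.card_union_le _ _)
  intro e he
  rw [mem_inc] at he
  rw [Finset.mem_union, mem_inc, mem_inc]
  simp only [Finset.mem_union] at he
  tauto

/-- Placing the label `a` on the arc `f` creates a new coincidence. -/
def P (l : A → ℝ) (f : A) (a : ℝ) : Prop :=
  ∃ p r, D.s l p ≠ D.s l r ∧
    D.s l p + D.ep f p * (a - l f) = D.s l r + D.ep f r * (a - l f)

lemma P_end {l : A → ℝ} {f : A} {a : ℝ} (h : D.P l f a) :
    ∃ p r, (p = D.t f ∨ p = D.h f) ∧ D.s l p ≠ D.s l r ∧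
      D.s l p + D.ep f p * (a - l f) = D.s l r + D.ep f r * (a - l f) := by
  obtain ⟨p, r, hne, heq⟩ := h
  by_cases hp : p = D.t f ∨ p = D.h f
  · exact ⟨p, r, hp, hne, heq⟩
  · by_cases hr : r = D.t f ∨ r = D.h f
    · exact ⟨r, p, hr, hne.symm, heq.symm⟩
    · exfalso
      push Not at hp hr
      rw [D.ep_other hp.1 hp.2, D.ep_other hr.1 hr.2] at heq
      apply hne
      linarith

/-- A counting principle. -/
lemma card_le_of_rel {α : Type*} (S : Finset α) (Q : α → V → Prop) (h1 : ∀ g ∈ S, ∃ r, Q g r)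
    (h2 : ∀ g ∈ S, ∀ g' ∈ S, ∀ r, Q g r → Q g' r → g = g') : S.card ≤ Fintype.card V := by
  rw [← Finset.card_univ]
  apply Finset.card_le_card_of_forall_subsingleton Q
  · intro a ha
    obtain ⟨r, hr⟩ := h1 a ha
    exact ⟨r, Finset.mem_univ _, hr⟩
  · intro r _ a ha b hb
    exact h2 a ha.1 b hb.1 r ha.2 hb.2

/-- The number of labels whose placement on `f` creates a new coincidence. -/
lemma card_P (l : A → ℝ) (hl : Function.Injective l) (f : A) [DecidablePred fun g => D.P l f (l g)] :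
    (univ.filter fun g => D.P l f (l g)).card ≤ 2 * Fintype.card V := by
  classical
  have hsub : (univ.filter fun g => D.P l f (l g)) ⊆
      (univ.filter fun g => ∃ r, D.s l (D.t f) ≠ D.s l r ∧ D.s l (D.t f) +
        D.ep f (D.t f) * (l g - l f) = D.s l r + D.ep f r * (l g - l f)) ∪
      (univ.filter fun g => ∃ r, D.s l (D.h f) ≠ D.s l r ∧ D.s l (D.h f) +
        D.ep f (D.h f) * (l g - l f) = D.s l r + D.ep f r * (l g - l f)) := by
    intro g hg
    rw [Finset.mem_filter] at hg
    obtain ⟨p, r, hp, hne, heq⟩ := D.P_end hg.2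
    rw [Finset.mem_union, Finset.mem_filter, Finset.mem_filter]
    rcases hp with rfl | rfl
    · exact Or.inl ⟨Finset.mem_univ _, r, hne, heq⟩
    · exact Or.inr ⟨Finset.mem_univ _, r, hne, heq⟩
  refine (Finset.card_le_card hsub).trans ((Finset.card_union_le _ _).trans ?_)
  rw [two_mul]
  have key : ∀ p : V, (univ.filter fun g => ∃ r, D.s l p ≠ D.s l r ∧ D.s l p +
        D.ep f p * (l g - l f) = D.s l r + D.ep f r * (l g - l f)).card ≤ Fintype.card V := by
    intro p
    apply card_le_of_rel _ (fun g r => D.s l p ≠ D.s l r ∧ D.s l p +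
        D.ep f p * (l g - l f) = D.s l r + D.ep f r * (l g - l f))
    · intro g hg
      exact (Finset.mem_filter.1 hg).2
    · rintro g - g' - r ⟨hne, h1⟩ ⟨-, h2⟩
      apply hl
      have h3 : (D.ep f p - D.ep f r) * (l g - l g') = 0 := by linarith
      rcases mul_eq_zero.1 h3 with h4 | h4
      · exfalso; apply hne
        have h5 : D.ep f p = D.ep f r := by linarith
        rw [h5] at h1
        linarith
      · linarith
  exact add_le_add (key _) (key _)

open Classical in
/-- number of arcs on which the label of `g` cannot be placed -/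
noncomputable def B (l : A → ℝ) (a : ℝ) : ℕ := (univ.filter fun f => D.P l f a).card

open Classical in
lemma sum_B (l : A → ℝ) (hl : Function.Injective l) :
    ∑ g, D.B l (l g) ≤ Fintype.card A * (2 * Fintype.card V) := by
  have h1 : ∑ g, D.B l (l g) = ∑ f, (univ.filter fun g => D.P l f (l g)).card := by
    simp only [B, Finset.card_filter]
    exact Finset.sum_comm
  rw [h1, ← Finset.card_univ (α := A), ← smul_eq_mul]
  exact Finset.sum_le_card_nsmul _ _ _ fun f _ => D.card_P l hl f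

/-- Markov inequality. -/
lemma markov (l : A → ℝ) (hl : Function.Injective l) (S : Finset A) (k c : ℕ)
    (hS : ∀ g ∈ S, Fintype.card A ≤ k * D.B l (l g)) (hc : k * 2 * Fintype.card V ≤ c)
    (hA : 0 < Fintype.card A) : S.card ≤ c := by
  have h1 : S.card * Fintype.card A ≤ ∑ g ∈ S, k * D.B l (l g) := by
    rw [← smul_eq_mul]
    exact Finset.card_nsmul_le_sum _ _ _ hS
  have h2 : ∑ g ∈ S, k * D.B l (l g) ≤ k * ∑ g, D.B l (l g) := by
    rw [Finset.mul_sum]
    exact Finset.sum_le_sum_of_subset (Finset.subset_univ S)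
  have h3 := D.sum_B l hl
  have h4 : S.card * Fintype.card A ≤ c * Fintype.card A := by
    calc S.card * Fintype.card A ≤ k * ∑ g, D.B l (l g) := h1.trans h2
      _ ≤ k * (Fintype.card A * (2 * Fintype.card V)) := Nat.mul_le_mul_left _ h3
      _ = (k * 2 * Fintype.card V) * Fintype.card A := by ring
      _ ≤ c * Fintype.card A := Nat.mul_le_mul_right _ hc
  exact Nat.le_of_mul_le_mul_right h4 hA

open Classical in
/-- Effect of a change at few vertices. -/
lemma B_change {l l₁ : A → ℝ} (hl : Function.Injective l) (X : Finset V)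
    (hX : ∀ x ∉ X, D.s l₁ x = D.s l x) (hlX : ∀ f, D.t f ∉ X → D.h f ∉ X → l₁ f = l f) (a : ℝ) :
    D.B l₁ a ≤ D.B l a + 3 * (X.card * Fintype.card V) := by
  have hsub : (univ.filter fun f => D.P l₁ f a) ⊆ (univ.filter fun f => D.P l f a) ∪
      (D.inc X ∪ X.biUnion fun r =>
        ((univ.filter fun f => D.s l (D.t f) + (a - l f) = D.s l₁ r) ∪
          (univ.filter fun f => D.s l (D.h f) - (a - l f) = D.s l₁ r))) := by
    intro f hf
    rw [Finset.mem_filter] at hf
    rw [Finset.mem_union, Finset.mem_union, Finset.mem_filter, mem_inc, Finset.mem_biUnion]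
    by_cases hfX : D.t f ∈ X ∨ D.h f ∈ X
    · exact Or.inr (Or.inl hfX)
    push Not at hfX
    obtain ⟨p, r, hp, hne, heq⟩ := D.P_end hf.2
    have hpX : p ∉ X := by rcases hp with rfl | rfl; exacts [hfX.1, hfX.2]
    rw [hlX f hfX.1 hfX.2, hX p hpX] at heq
    rw [hX p hpX] at hne
    by_cases hr : r ∈ X
    · right; right
      refine ⟨r, hr, ?_⟩
      have hr1 : r ≠ D.t f := by rintro rfl; exact hfX.1 hr
      have hr2 : r ≠ D.h f := by rintro rfl; exact hfX.2 hr
      rw [D.ep_other hr1 hr2] at heq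
      rw [Finset.mem_union, Finset.mem_filter, Finset.mem_filter]
      rcases hp with rfl | rfl
      · left; refine ⟨Finset.mem_univ _, ?_⟩
        rw [D.ep_t] at heq; linarith
      · right; refine ⟨Finset.mem_univ _, ?_⟩
        rw [D.ep_h] at heq; linarith
    · left
      refine ⟨Finset.mem_univ _, p, r, ?_, ?_⟩
      · rwa [hX r hr] at hne
      · rwa [hX r hr] at heq
  refine (Finset.card_le_card hsub).trans ((Finset.card_union_le _ _).trans ?_)
  refine Nat.add_le_add_left ((Finset.card_union_le _ _).trans ?_) _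
  have h1 := D.inc_card X
  have h2 : (X.biUnion fun r =>
        ((univ.filter fun f => D.s l (D.t f) + (a - l f) = D.s l₁ r) ∪
          (univ.filter fun f => D.s l (D.h f) - (a - l f) = D.s l₁ r))).card ≤
      X.card * (Fintype.card V + Fintype.card V) := by
    apply Finset.card_biUnion_le_card_mul
    intro r _
    refine (Finset.card_union_le _ _).trans (add_le_add ?_ ?_)
    · apply card_le_of_rel _ (fun f p => D.t f = p ∧ D.s l p + (a - l f) = D.s l₁ r)
      · intro f hf
        exact ⟨D.t f, rfl, (Finset.mem_filter.1 hf).2⟩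
      · rintro f - f' - p ⟨-, h⟩ ⟨-, h'⟩
        apply hl; linarith
    · apply card_le_of_rel _ (fun f p => D.h f = p ∧ D.s l p - (a - l f) = D.s l₁ r)
      · intro f hf
        exact ⟨D.h f, rfl, (Finset.mem_filter.1 hf).2⟩
      · rintro f - f' - p ⟨-, h⟩ ⟨-, h'⟩
        apply hl; linarith
  calc _ ≤ X.card * Fintype.card V + X.card * (Fintype.card V + Fintype.card V) :=
        add_le_add h1 h2
    _ = 3 * (X.card * Fintype.card V) := by ring

open Classical in
/-- A good swap. -/
lemma good_swap {l : A → ℝ} (hl : Function.Injective l) (e : A) (T : Finset V)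
    (hcard : 6 * Fintype.card V + (D.inc T).card + D.B l (l e) < Fintype.card A) :
    ∃ f, f ≠ e ∧ f ∉ D.inc T ∧ f ∉ D.inc {D.t e, D.h e} ∧
      (∀ p r, D.s (l ∘ Equiv.swap e f) p = D.s (l ∘ Equiv.swap e f) r → D.s l p = D.s l r) ∧
      (∀ v, (v = D.t e ∨ v = D.h e) → ∀ r, r ≠ v →
        D.s (l ∘ Equiv.swap e f) v = D.s (l ∘ Equiv.swap e f) r → r ∉ T) := by
  let E1 : Finset A := D.inc {D.t e, D.h e}
  let E3 : Finset A := univ.filter fun f => D.P l e (l f)
  let E4 : Finset A := univ.filter fun f => D.P l f (l e)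
  let E5 : V → Finset A := fun p => univ.filter fun f => ∃ r, D.s l p ≠ D.s l r ∧
    D.ep e p = D.ep f r ∧ 2 * D.ep e p * (l f - l e) = D.s l r - D.s l p
  have hE1 : E1.card ≤ 2 * Fintype.card V := by
    refine (D.inc_card _).trans (Nat.mul_le_mul_right _ Finset.card_le_two)
  have hE3 : E3.card ≤ 2 * Fintype.card V := D.card_P l hl e
  have hE4 : E4.card = D.B l (l e) := rfl
  have hE5 : ∀ p, (p = D.t e ∨ p = D.h e) → (E5 p).card ≤ Fintype.card V := by
    intro p hp
    have hep : D.ep e p ≠ 0 := by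
      rcases hp with rfl | rfl
      · rw [D.ep_t]; norm_num
      · rw [D.ep_h]; norm_num
    apply card_le_of_rel _ (fun f r => 2 * D.ep e p * (l f - l e) = D.s l r - D.s l p)
    · intro f hf
      obtain ⟨r, -, -, h⟩ := (Finset.mem_filter.1 hf).2
      exact ⟨r, h⟩
    · rintro f - f' - r h h'
      apply hl
      have h2 : D.ep e p * (l f - l f') = 0 := by linarith
      rcases mul_eq_zero.1 h2 with h3 | h3
      · exact absurd h3 hep
      · linarith
  have hex : ∃ f, f ∉ (E1 ∪ E3) ∪ (E4 ∪ (E5 (D.t e) ∪ E5 (D.h e))) ∪ D.inc T := by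
    by_contra hcon
    push Not at hcon
    have h1 : Fintype.card A ≤ ((E1 ∪ E3) ∪ (E4 ∪ (E5 (D.t e) ∪ E5 (D.h e))) ∪ D.inc T).card := by
      rw [← Finset.card_univ]
      exact Finset.card_le_card fun f _ => hcon f
    have h2 := Finset.card_union_le ((E1 ∪ E3) ∪ (E4 ∪ (E5 (D.t e) ∪ E5 (D.h e)))) (D.inc T)
    have h3 := Finset.card_union_le (E1 ∪ E3) (E4 ∪ (E5 (D.t e) ∪ E5 (D.h e)))
    have h4 := Finset.card_union_le E1 E3
    have h5 := Finset.card_union_le E4 (E5 (D.t e) ∪ E5 (D.h e))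
    have h6 := Finset.card_union_le (E5 (D.t e)) (E5 (D.h e))
    have h7 := hE5 _ (Or.inl rfl)
    have h8 := hE5 _ (Or.inr rfl)
    omega
  obtain ⟨f, hf⟩ := hex
  simp only [Finset.mem_union, not_or] at hf
  obtain ⟨⟨⟨hf1, hf3⟩, hf4, hf5, hf6⟩, hfT⟩ := hf
  have hfe : f ≠ e := by
    rintro rfl
    apply hf1
    rw [mem_inc]; simp
  -- disjointness of the end points
  have hd1 : D.t f ≠ D.t e ∧ D.t f ≠ D.h e ∧ D.h f ≠ D.t e ∧ D.h f ≠ D.h e := by
    have : ¬ (D.t f ∈ ({D.t e, D.h e} : Finset V) ∨ D.h f ∈ ({D.t e, D.h e} : Finset V)) := by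
      rw [← mem_inc]; exact hf1
    simp only [Finset.mem_insert, Finset.mem_singleton, not_or] at this
    exact ⟨this.1.1, this.1.2, this.2.1, this.2.2⟩
  have hsw := D.s_swap l hfe.symm
  have hP3 : ¬ D.P l e (l f) := fun h => hf3 (Finset.mem_filter.2 ⟨Finset.mem_univ _, h⟩)
  have hP4 : ¬ D.P l f (l e) := fun h => hf4 (Finset.mem_filter.2 ⟨Finset.mem_univ _, h⟩)
  -- no new coincidences
  have hcross : ∀ p r, (p = D.t e ∨ p = D.h e) → (r = D.t f ∨ r = D.h f) →
      D.s (l ∘ Equiv.swap e f) p = D.s (l ∘ Equiv.swap e f) r → D.s l p = D.s l r := by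
    intro p r hp hr heq
    by_contra hne
    rw [hsw, hsw] at heq
    have hfp : D.ep f p = 0 := by
      apply D.ep_other
      · rcases hp with rfl | rfl
        exacts [hd1.1.symm, hd1.2.1.symm]
      · rcases hp with rfl | rfl
        exacts [hd1.2.2.1.symm, hd1.2.2.2.symm]
    have her : D.ep e r = 0 := by
      apply D.ep_other
      · rcases hr with rfl | rfl
        exacts [hd1.1, hd1.2.2.1]
      · rcases hr with rfl | rfl
        exacts [hd1.2.1, hd1.2.2.2]
    rw [hfp, her] at heq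
    have h1 : (D.ep e p + D.ep f r) * (l f - l e) = D.s l r - D.s l p := by linarith
    have h2 : D.ep e p = D.ep f r := by
      by_contra hne2
      have h3 : D.ep e p + D.ep f r = 0 := by
        rcases hp with rfl | rfl <;> rcases hr with rfl | rfl
        · exact absurd (by rw [D.ep_t, D.ep_t]) hne2
        · rw [D.ep_t, D.ep_h]; norm_num
        · rw [D.ep_t, D.ep_h]; norm_num
        · exact absurd (by rw [D.ep_h, D.ep_h]) hne2
      rw [h3] at h1
      apply hne
      linarith
    have hmem : f ∈ E5 p := by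
      refine Finset.mem_filter.2 ⟨Finset.mem_univ _, r, hne, h2, ?_⟩
      rw [← h1, ← h2]; ring
    rcases hp with rfl | rfl
    · exact hf5 hmem
    · exact hf6 hmem
  have hnew : ∀ p r, D.s (l ∘ Equiv.swap e f) p = D.s (l ∘ Equiv.swap e f) r →
      D.s l p = D.s l r := by
    intro p r heq
    by_contra hne
    by_cases hpe : p = D.t e ∨ p = D.h e
    · by_cases hrf : r = D.t f ∨ r = D.h f
      · exact hne (hcross p r hpe hrf heq)
      · push Not at hrf
        have hpf : D.ep f p = 0 := by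
          apply D.ep_other
          · rcases hpe with rfl | rfl
            exacts [hd1.1.symm, hd1.2.1.symm]
          · rcases hpe with rfl | rfl
            exacts [hd1.2.2.1.symm, hd1.2.2.2.symm]
        rw [hsw, hsw, hpf, D.ep_other hrf.1 hrf.2] at heq
        exact hP3 ⟨p, r, hne, by linarith⟩
    · push Not at hpe
      have hpe0 := D.ep_other hpe.1 hpe.2
      by_cases hre : r = D.t e ∨ r = D.h e
      · by_cases hpf : p = D.t f ∨ p = D.h f
        · exact hne (hcross r p hre hpf heq.symm).symm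
        · push Not at hpf
          have hrf : D.ep f r = 0 := by
            apply D.ep_other
            · rcases hre with rfl | rfl
              exacts [hd1.1.symm, hd1.2.1.symm]
            · rcases hre with rfl | rfl
              exacts [hd1.2.2.1.symm, hd1.2.2.2.symm]
          rw [hsw, hsw, hrf, D.ep_other hpf.1 hpf.2] at heq
          exact hP3 ⟨p, r, hne, by linarith⟩
      · push Not at hre
        have hre0 := D.ep_other hre.1 hre.2
        rw [hsw, hsw, hpe0, hre0] at heq
        exact hP4 ⟨p, r, hne, by linarith⟩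
  refine ⟨f, hfe, hfT, hf1, hnew, ?_⟩
  intro v hv r hrv heq hrT
  have h0 := hnew v r heq
  have hrf : r ≠ D.t f ∧ r ≠ D.h f := by
    constructor
    · rintro rfl; exact hfT (D.mem_inc.2 (Or.inl hrT))
    · rintro rfl; exact hfT (D.mem_inc.2 (Or.inr hrT))
  have hvf : D.ep f v = 0 := by
    apply D.ep_other
    · rcases hv with rfl | rfl
      exacts [hd1.1.symm, hd1.2.1.symm]
    · rcases hv with rfl | rfl
      exacts [hd1.2.2.1.symm, hd1.2.2.2.symm]
  have hlne : l f - l e ≠ 0 := sub_ne_zero.2 fun h => hfe (hl h)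
  rw [hsw, hsw, hvf, D.ep_other hrf.1 hrf.2, h0] at heq
  have h1 : (D.ep e v - D.ep e r) * (l f - l e) = 0 := by linarith
  rcases mul_eq_zero.1 h1 with h2 | h2
  · have hne : D.ep e v ≠ D.ep e r := by
      by_cases hre : r = D.t e ∨ r = D.h e
      · rcases hv with rfl | rfl <;> rcases hre with rfl | rfl
        · exact absurd rfl hrv
        · rw [D.ep_t, D.ep_h]; norm_num
        · rw [D.ep_t, D.ep_h]; norm_num
        · exact absurd rfl hrv
      · push Not at hre
        rw [D.ep_other hre.1 hre.2]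
        rcases hv with rfl | rfl
        · rw [D.ep_t]; norm_num
        · rw [D.ep_h]; norm_num
    exact hne (by linarith)
  · exact hlne h2

/-- number of coincidences -/
noncomputable def Phi (l : A → ℝ) : ℕ :=
  (univ.filter fun p : V × V => p.1 ≠ p.2 ∧ D.s l p.1 = D.s l p.2).card

lemma Phi_lt {l l' : A → ℝ} (h : ∀ p r, p ≠ r → D.s l' p = D.s l' r → D.s l p = D.s l r)
    {u v : V} (huv : u ≠ v) (h1 : D.s l u = D.s l v) (h2 : D.s l' u ≠ D.s l' v) :
    D.Phi l' < D.Phi l := by
  apply Finset.card_lt_card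
  rw [Finset.ssubset_iff_of_subset]
  · refine ⟨(u, v), ?_, ?_⟩
    · simp [huv, h1]
    · simp [h2]
  · intro p hp
    rw [Finset.mem_filter] at hp ⊢
    exact ⟨Finset.mem_univ _, hp.2.1, h _ _ hp.2.1 hp.2.2⟩

open Classical in
/-- The main theorem: a labelling with the least number of coincidences has none. -/
theorem main (w : A → ℝ) (hw : Function.Injective w)
    (hm : 45 * Fintype.card V ≤ Fintype.card A)
    (hiso : ∀ u v : V, u ≠ v → ∃ e, D.t e = u ∨ D.h e = u ∨ D.t e = v ∨ D.h e = v) :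
    ∃ σ : Equiv.Perm A, Function.Injective (D.s (w ∘ σ)) := by
  obtain ⟨σ₀, hσ₀⟩ := Finite.exists_min fun σ : Equiv.Perm A => D.Phi (w ∘ σ)
  refine ⟨σ₀, ?_⟩
  set l : A → ℝ := w ∘ σ₀ with hldef
  have hl : Function.Injective l := hw.comp σ₀.injective
  have hmin : ∀ σ : Equiv.Perm A, D.Phi l ≤ D.Phi (l ∘ σ) := by
    intro σ
    exact hσ₀ (σ.trans σ₀)
  by_contra hinj
  rw [Function.Injective] at hinj
  push Not at hinj
  obtain ⟨v, u, hvu, hvune⟩ := hinj
  set N := Fintype.card V with hN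
  set m := Fintype.card A with hmdef
  have hNpos : 0 < N := Fintype.card_pos_iff.2 ⟨v⟩
  have hmpos : 0 < m := by omega
  -- every arc at a vertex in a coincidence is heavy
  have hheavy : ∀ p r, p ≠ r → D.s l p = D.s l r → ∀ e, (p = D.t e ∨ p = D.h e) →
      m ≤ D.B l (l e) + 7 * N := by
    intro p r hpr hcoll e hpe
    by_contra hlt
    obtain ⟨f, -, -, -, h1, h2⟩ := D.good_swap hl e {r} (by
      have := D.inc_single r
      omega)
    have h3 := h2 p hpe r hpr.symm
    have h4 : D.s (l ∘ Equiv.swap e f) p ≠ D.s (l ∘ Equiv.swap e f) r := by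
      intro h
      exact h3 h (Finset.mem_singleton_self r)
    have h5 := D.Phi_lt (fun a b _ => h1 a b) hpr hcoll h4
    exact absurd (hmin _) (not_le.2 h5)
  let Hv : Finset A := univ.filter fun g => m ≤ D.B l (l g) + 7 * N
  have hHv : Hv.card ≤ 4 * N := by
    apply D.markov l hl Hv 2 _ _ (by omega) hmpos
    intro g hg
    have := (Finset.mem_filter.1 hg).2
    omega
  -- the number of arcs at the vertices with a given value
  have hclass : ∀ (X : Finset V) (c : ℝ),
      (D.inc (univ.filter fun r => r ∉ X ∧ D.s l r = c)).card ≤ 4 * N := by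
    intro X c
    by_cases hone : (univ.filter fun r => r ∉ X ∧ D.s l r = c).card ≤ 1
    · refine (D.inc_card _).trans ?_
      calc _ ≤ 1 * N := Nat.mul_le_mul_right _ hone
        _ ≤ 4 * N := by omega
    · push Not at hone
      refine le_trans (Finset.card_le_card ?_) hHv
      intro e he
      refine Finset.mem_filter.2 ⟨Finset.mem_univ _, ?_⟩
      have key : ∀ p ∈ (univ.filter fun r => r ∉ X ∧ D.s l r = c), (p = D.t e ∨ p = D.h e) →
          m ≤ D.B l (l e) + 7 * N := by
        intro p hp hpe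
        obtain ⟨r, hr, hrp⟩ := Finset.exists_mem_ne hone p
        have hp' := (Finset.mem_filter.1 hp).2.2
        have hr' := (Finset.mem_filter.1 hr).2.2
        exact hheavy p r hrp.symm (hp'.trans hr'.symm) e hpe
      rcases D.mem_inc.1 he with h | h
      · exact key _ h (Or.inl rfl)
      · exact key _ h (Or.inr rfl)
  -- usable arcs
  let NU : Finset A := univ.filter fun g => m < 16 * D.B l (l g)
  have hNU : NU.card ≤ 32 * N := by
    apply D.markov l hl NU 16 _ _ (by omega) hmpos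
    intro g hg
    have := (Finset.mem_filter.1 hg).2
    omega
  -- one of the two vertices has an arc; call it `v`
  obtain ⟨v, u, hvune, hvu, e, hve⟩ : ∃ v u, v ≠ u ∧ D.s l v = D.s l u ∧
      ∃ e, v = D.t e ∨ v = D.h e := by
    obtain ⟨e, he⟩ := hiso v u hvune
    rcases he with h | h | h | h
    · exact ⟨v, u, hvune, hvu, e, Or.inl h.symm⟩
    · exact ⟨v, u, hvune, hvu, e, Or.inr h.symm⟩
    · exact ⟨u, v, hvune.symm, hvu.symm, e, Or.inl h.symm⟩
    · exact ⟨u, v, hvune.symm, hvu.symm, e, Or.inr h.symm⟩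
  -- choice of `h`
  let L1 : (A → V) → Finset A := fun end' => univ.filter fun g => g ∉ NU ∧
    ∀ g', g' ∉ NU → (end' g = D.t g' ∨ end' g = D.h g') → g' = g
  have hL1 : ∀ end' : A → V, (∀ g, end' g = D.t g ∨ end' g = D.h g) → (L1 end').card ≤ N := by
    intro end' hend
    apply card_le_of_rel _ (fun g r => end' g = r)
    · intro g _; exact ⟨_, rfl⟩
    · intro g hg g' hg' r h h'
      have h1 := (Finset.mem_filter.1 hg).2
      have h2 := (Finset.mem_filter.1 hg').2
      refine (h1.2 g' h2.1 ?_).symm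
      rw [h, ← h']
      exact hend g'
  have hex : ∃ h, h ∉ (NU ∪ (L1 D.t ∪ L1 D.h)) ∪
      (D.inc {D.t e, D.h e, u} ∪ univ.filter fun g => D.P l e (l g)) := by
    by_contra hcon
    push Not at hcon
    have h1 : m ≤ ((NU ∪ (L1 D.t ∪ L1 D.h)) ∪
      (D.inc {D.t e, D.h e, u} ∪ univ.filter fun g => D.P l e (l g))).card := by
      rw [hmdef, ← Finset.card_univ]
      exact Finset.card_le_card fun f _ => hcon f
    have h2 := Finset.card_union_le (NU ∪ (L1 D.t ∪ L1 D.h))
      (D.inc {D.t e, D.h e, u} ∪ univ.filter fun g => D.P l e (l g))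
    have h3 := Finset.card_union_le NU (L1 D.t ∪ L1 D.h)
    have h4 := Finset.card_union_le (L1 D.t) (L1 D.h)
    have h5 := Finset.card_union_le (D.inc {D.t e, D.h e, u}) (univ.filter fun g => D.P l e (l g))
    have h6 := hL1 D.t fun g => Or.inl rfl
    have h7 := hL1 D.h fun g => Or.inr rfl
    have h8 : (D.inc {D.t e, D.h e, u}).card ≤ 3 * N :=
      (D.inc_card _).trans (Nat.mul_le_mul_right _ Finset.card_le_three)
    have h9 : (univ.filter fun g => D.P l e (l g)).card ≤ 2 * N := D.card_P l hl e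
    omega
  obtain ⟨h, hh⟩ := hex
  simp only [Finset.mem_union, not_or] at hh
  obtain ⟨⟨hhNU, hhL1, hhL2⟩, hhinc, hhP⟩ := hh
  have hhP' : ¬ D.P l e (l h) := fun hp => hhP (Finset.mem_filter.2 ⟨Finset.mem_univ _, hp⟩)
  have hdis : (D.t h ≠ D.t e ∧ D.t h ≠ D.h e ∧ D.t h ≠ u) ∧
      (D.h h ≠ D.t e ∧ D.h h ≠ D.h e ∧ D.h h ≠ u) := by
    rw [mem_inc] at hhinc
    simp only [Finset.mem_insert, Finset.mem_singleton, not_or] at hhinc
    exact hhinc
  have heh : e ≠ h := by
    rintro rfl
    exact hdis.1.1 rfl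
  -- usable arcs at the ends of `h`
  have husable : ∀ z, (z = D.t h ∨ z = D.h h) → ∃ g, g ≠ h ∧ (z = D.t g ∨ z = D.h g) ∧
      16 * D.B l (l g) ≤ m := by
    intro z hz
    have aux : ∀ end' : A → V, h ∉ L1 end' → ∃ g, g ≠ h ∧ (end' h = D.t g ∨ end' h = D.h g) ∧
        16 * D.B l (l g) ≤ m := by
      intro end' hn
      have h1 : ¬ (h ∉ NU ∧ ∀ g', g' ∉ NU → (end' h = D.t g' ∨ end' h = D.h g') → g' = h) :=
        fun hc => hn (Finset.mem_filter.2 ⟨Finset.mem_univ _, hc⟩)
      push Not at h1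
      obtain ⟨g, hg1, hg2, hg3⟩ := h1 hhNU
      refine ⟨g, hg3, hg2, ?_⟩
      by_contra hlt
      exact hg1 (Finset.mem_filter.2 ⟨Finset.mem_univ _, not_le.1 hlt⟩)
    rcases hz with rfl | rfl
    · exact aux D.t hhL1
    · exact aux D.h hhL2
  -- first swap
  set l₁ : A → ℝ := l ∘ Equiv.swap e h with hl₁
  have hl₁inj : Function.Injective l₁ := hl.comp (Equiv.swap e h).injective
  have hs1 := D.s_swap l heh
  let X₁ : Finset V := {D.t e, D.h e, D.t h, D.h h}
  have hX₁card : X₁.card ≤ 4 := Finset.card_le_four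
  have hX₁ : ∀ x ∉ X₁, D.s l₁ x = D.s l x := by
    intro x hx
    simp only [X₁, Finset.mem_insert, Finset.mem_singleton, not_or] at hx
    rw [hl₁, hs1, D.ep_other hx.1 hx.2.1, D.ep_other hx.2.2.1 hx.2.2.2]
    ring
  have hlX₁ : ∀ f, D.t f ∉ X₁ → D.h f ∉ X₁ → l₁ f = l f := by
    intro f hf1 _
    have h1 : f ≠ e := by rintro rfl; exact hf1 (by simp [X₁])
    have h2 : f ≠ h := by rintro rfl; exact hf1 (by simp [X₁])
    rw [hl₁, Function.comp_apply, Equiv.swap_apply_of_ne_of_ne h1 h2]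
  have hne_lh : l h - l e ≠ 0 := sub_ne_zero.2 fun hc => heh (hl hc).symm
  have hcoll1 : ∀ p r, p ≠ D.t h → p ≠ D.h h → r ≠ D.t h → r ≠ D.h h →
      D.s l₁ p = D.s l₁ r → D.s l p = D.s l r := by
    intro p r hp1 hp2 hr1 hr2 heq
    by_contra hne
    rw [hl₁, hs1, hs1, D.ep_other hp1 hp2, D.ep_other hr1 hr2] at heq
    exact hhP' ⟨p, r, hne, by linarith⟩
  have huv1 : D.s l₁ v ≠ D.s l₁ u := by
    intro heq
    have hv1 : D.ep h v = 0 := by
      apply D.ep_other
      · rcases hve with rfl | rfl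
        exacts [hdis.1.1.symm, hdis.1.2.1.symm]
      · rcases hve with rfl | rfl
        exacts [hdis.2.1.symm, hdis.2.2.1.symm]
    rw [hl₁, hs1, hs1, hv1, D.ep_other hdis.1.2.2.symm hdis.2.2.2.symm, hvu] at heq
    have h1 : (D.ep e v - D.ep e u) * (l h - l e) = 0 := by linarith
    rcases mul_eq_zero.1 h1 with h2 | h2
    · have h3 : D.ep e v ≠ D.ep e u := by
        by_cases hue : u = D.t e ∨ u = D.h e
        · rcases hve with h3 | h3 <;> rcases hue with h4 | h4
          · exact absurd (h3.trans h4.symm) hvune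
          · rw [h3, h4, D.ep_t, D.ep_h]; norm_num
          · rw [h3, h4, D.ep_t, D.ep_h]; norm_num
          · exact absurd (h3.trans h4.symm) hvune
        · push Not at hue
          rw [D.ep_other hue.1 hue.2]
          rcases hve with rfl | rfl
          · rw [D.ep_t]; norm_num
          · rw [D.ep_h]; norm_num
      exact h3 (by linarith)
    · exact hne_lh h2
  -- second swap: repair `z = t h`
  obtain ⟨e₂, he₂h, hze₂, hBe₂⟩ := husable (D.t h) (Or.inl rfl)
  have he₂e : e₂ ≠ e := by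
    rintro rfl
    rcases hze₂ with h1 | h1
    · exact hdis.1.1 h1
    · exact hdis.1.2.1 h1
  have hl₁e₂ : l₁ e₂ = l e₂ := by
    rw [hl₁, Function.comp_apply, Equiv.swap_apply_of_ne_of_ne he₂e he₂h]
  let T₁ : Finset V := (univ.filter fun r => r ∉ X₁ ∧ D.s l r = D.s l₁ (D.t h)) ∪ X₁
  have hT₁ : (D.inc T₁).card ≤ 8 * N := by
    have h1 := D.inc_union (univ.filter fun r => r ∉ X₁ ∧ D.s l r = D.s l₁ (D.t h)) X₁
    have h2 := hclass X₁ (D.s l₁ (D.t h))
    have h3 : (D.inc X₁).card ≤ 4 * N := (D.inc_card _).trans (Nat.mul_le_mul_right _ hX₁card)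
    exact h1.trans (by omega)
  have hB₂ : D.B l₁ (l₁ e₂) ≤ D.B l (l e₂) + 12 * N := by
    rw [hl₁e₂]
    refine (D.B_change hl X₁ hX₁ hlX₁ (l e₂)).trans ?_
    have : X₁.card * N ≤ 4 * N := Nat.mul_le_mul_right _ hX₁card
    change D.B l (l e₂) + 3 * (X₁.card * N) ≤ _
    omega
  obtain ⟨f₂, hf₂e₂, hf₂T, hf₂inc, hno2, hT2⟩ := D.good_swap hl₁inj e₂ T₁ (by omega)
  set l₂ : A → ℝ := l₁ ∘ Equiv.swap e₂ f₂ with hl₂
  have hl₂inj : Function.Injective l₂ := hl₁inj.comp (Equiv.swap e₂ f₂).injective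
  have hz2 : ∀ r, r ≠ D.t h → D.s l₂ (D.t h) ≠ D.s l₂ r := by
    intro r hr heq
    have h1 := hT2 (D.t h) hze₂ r hr heq
    have h2 := hno2 _ _ heq
    apply h1
    by_cases hrX : r ∈ X₁
    · exact Finset.mem_union_right _ hrX
    · apply Finset.mem_union_left
      refine Finset.mem_filter.2 ⟨Finset.mem_univ _, hrX, ?_⟩
      rw [h2, hX₁ r hrX]
  -- third swap: repair `h h`
  obtain ⟨e₃, he₃h, hze₃, hBe₃⟩ := husable (D.h h) (Or.inr rfl)
  have he₃e : e₃ ≠ e := by
    rintro rfl
    rcases hze₃ with h1 | h1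
    · exact hdis.2.1 h1
    · exact hdis.2.2.1 h1
  have he₃e₂ : e₃ ≠ e₂ := by
    rintro rfl
    apply he₃h
    apply D.simple
    rcases hze₂ with h1 | h1 <;> rcases hze₃ with h2 | h2
    · exact absurd (h1.trans h2.symm) (D.ne h)
    · left; exact ⟨h1.symm, h2.symm⟩
    · right; exact ⟨h2.symm, h1.symm⟩
    · exact absurd (h1.trans h2.symm) (D.ne h)
  have he₃f₂ : e₃ ≠ f₂ := by
    rintro rfl
    apply hf₂T
    rw [mem_inc]
    have hmem : D.h h ∈ T₁ := Finset.mem_union_right _ (by simp [X₁])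
    rcases hze₃ with h1 | h1
    · left; rw [← h1]; exact hmem
    · right; rw [← h1]; exact hmem
  have hl₂e₃ : l₂ e₃ = l e₃ := by
    rw [hl₂, Function.comp_apply, Equiv.swap_apply_of_ne_of_ne he₃e₂ he₃f₂, hl₁,
      Function.comp_apply, Equiv.swap_apply_of_ne_of_ne he₃e he₃h]
  let X₂ : Finset V := X₁ ∪ {D.t e₂, D.h e₂, D.t f₂, D.h f₂}
  have hX₂card : X₂.card ≤ 8 := by
    refine (Finset.card_union_le _ _).trans ?_
    have : ({D.t e₂, D.h e₂, D.t f₂, D.h f₂} : Finset V).card ≤ 4 := Finset.card_le_four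
    omega
  have hX₂ : ∀ x ∉ X₂, D.s l₂ x = D.s l x := by
    intro x hx
    simp only [X₂, Finset.mem_union, Finset.mem_insert, Finset.mem_singleton, not_or] at hx
    rw [hl₂, D.s_swap l₁ hf₂e₂.symm, D.ep_other hx.2.1 hx.2.2.1,
      D.ep_other hx.2.2.2.1 hx.2.2.2.2, hX₁ x hx.1]
    ring
  have hlX₂ : ∀ f, D.t f ∉ X₂ → D.h f ∉ X₂ → l₂ f = l f := by
    intro f hf1 hf2
    have h1 : f ≠ e₂ := by rintro rfl; exact hf1 (by simp [X₂])
    have h2 : f ≠ f₂ := by rintro rfl; exact hf1 (by simp [X₂])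
    rw [hl₂, Function.comp_apply, Equiv.swap_apply_of_ne_of_ne h1 h2]
    exact hlX₁ f (fun hc => hf1 (Finset.mem_union_left _ hc))
      (fun hc => hf2 (Finset.mem_union_left _ hc))
  let T₂ : Finset V := (univ.filter fun r => r ∉ X₂ ∧ D.s l r = D.s l₂ (D.h h)) ∪ X₂
  have hT₂ : (D.inc T₂).card ≤ 12 * N := by
    have h1 := D.inc_union (univ.filter fun r => r ∉ X₂ ∧ D.s l r = D.s l₂ (D.h h)) X₂
    have h2 := hclass X₂ (D.s l₂ (D.h h))
    have h3 : (D.inc X₂).card ≤ 8 * N := (D.inc_card _).trans (Nat.mul_le_mul_right _ hX₂card)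
    exact h1.trans (by omega)
  have hB₃ : D.B l₂ (l₂ e₃) ≤ D.B l (l e₃) + 24 * N := by
    rw [hl₂e₃]
    refine (D.B_change hl X₂ hX₂ hlX₂ (l e₃)).trans ?_
    have : X₂.card * N ≤ 8 * N := Nat.mul_le_mul_right _ hX₂card
    change D.B l (l e₃) + 3 * (X₂.card * N) ≤ _
    omega
  obtain ⟨f₃, hf₃e₃, hf₃T, hf₃inc, hno3, hT3⟩ := D.good_swap hl₂inj e₃ T₂ (by omega)
  set l₃ : A → ℝ := l₂ ∘ Equiv.swap e₃ f₃ with hl₃
  have hz3 : ∀ r, r ≠ D.h h → D.s l₃ (D.h h) ≠ D.s l₃ r := by
    intro r hr heq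
    have h1 := hT3 (D.h h) hze₃ r hr heq
    have h2 := hno3 _ _ heq
    apply h1
    by_cases hrX : r ∈ X₂
    · exact Finset.mem_union_right _ hrX
    · apply Finset.mem_union_left
      refine Finset.mem_filter.2 ⟨Finset.mem_univ _, hrX, ?_⟩
      rw [h2, hX₂ r hrX]
  -- conclusion
  have hfin : D.Phi l₃ < D.Phi l := by
    apply D.Phi_lt _ hvune hvu
    · intro heq
      exact huv1 (hno2 _ _ (hno3 _ _ heq))
    · intro p r hpr heq
      have h2 := hno3 _ _ heq
      have h1 := hno2 _ _ h2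
      have hp1 : p ≠ D.t h := by
        rintro rfl
        exact hz2 r hpr.symm h2
      have hr1 : r ≠ D.t h := by
        rintro rfl
        exact hz2 p hpr h2.symm
      have hp2 : p ≠ D.h h := by
        rintro rfl
        exact hz3 r hpr.symm heq
      have hr2 : r ≠ D.h h := by
        rintro rfl
        exact hz3 p hpr heq.symm
      exact hcoll1 p r hp1 hp2 hr1 hr2 h1
  have hperm : ∃ σ : Equiv.Perm A, l₃ = l ∘ σ :=
    ⟨((Equiv.swap e₃ f₃).trans (Equiv.swap e₂ f₂)).trans (Equiv.swap e h), by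
      funext a; simp [hl₃, hl₂, hl₁]⟩
  obtain ⟨σ, hσ⟩ := hperm
  rw [hσ] at hfin
  exact absurd (hmin σ) (not_le.2 hfin)

end Dig

end Pool.Agent.Lib.MP_076764_co
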