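import Mathlib

/-!
Directed joins are antimagic, for every set of positive labels.
-/

set_option autoImplicit false

open Finset

namespace Pool.Agent.Lib.MP_076764_co.Join

/-- Ranks along an increasing enumeration of a finite set with a real weight. -/
theorem rank {V : Type*} (A : Finset V) (X : V → ℝ) :
    ∃ r : V → ℕ, (∀ v ∈ A, r v < A.card) ∧ (∀ u ∈ A, ∀ v ∈ A, r u = r v → u = v) ∧
      (∀ u ∈ A, ∀ v ∈ A, r u < r v → X u ≤ X v) := by
  classical
  obtain ⟨e0⟩ : Nonempty (Fin A.card ≃ A) := ⟨(Fintype.equivFinOfCardEq (by simp)).symm⟩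
  obtain ⟨e, he⟩ : ∃ e : Fin A.card ≃ A, ∀ i j, i ≤ j → X (e i) ≤ X (e j) :=
    ⟨(Tuple.sort (fun i => X (e0 i))).trans e0,
      fun i j hij => Tuple.monotone_sort (fun i => X (e0 i)) hij⟩
  refine ⟨fun v => if h : v ∈ A then (e.symm ⟨v, h⟩).val else 0, ?_, ?_, ?_⟩
  · intro v hv
    simp only [hv, dite_true]
    exact (e.symm ⟨v, hv⟩).2
  · intro u hu v hv h
    simp only [hu, hv, dite_true] at h
    have := e.symm.injective (Fin.ext h)
    exact congrArg Subtype.val this
  · intro u hu v hv h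
    simp only [hu, hv, dite_true] at h
    have := he (e.symm ⟨u, hu⟩) (e.symm ⟨v, hv⟩) (le_of_lt h)
    simpa using this

/-- The number of arcs of `I` with head `u` is less than the number of elements of `A`, if their
tails are in `A` and different from `u`. -/
theorem sum_le {V : Type*} [DecidableEq V] (J : Finset (V × V)) (A : Finset V) (u : V) (hu : u ∈ A)
    (φ : V × V → V) (hφ : ∀ p ∈ J, φ p ∈ A ∧ φ p ≠ u)
    (hinj : ∀ p ∈ J, ∀ q ∈ J, φ p = φ q → p = q) (g : V × V → ℝ) (M : ℝ) (hM : 0 ≤ M)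
    (hg : ∀ p ∈ J, g p ≤ M) : ∑ p ∈ J, g p ≤ ((A.card : ℝ) - 1) * M := by
  have h3 : ∑ p ∈ J, g p ≤ J.card • M := sum_le_card_nsmul _ _ _ hg
  have h4 : J.card ≤ (A.erase u).card := by
    apply card_le_card_of_injOn φ
    · intro p hp
      apply mem_coe.mpr
      rw [mem_erase]
      exact ⟨(hφ p (mem_coe.mp hp)).2, (hφ p (mem_coe.mp hp)).1⟩
    · intro p hp q hq h
      exact hinj p (mem_coe.mp hp) q (mem_coe.mp hq) h
  have hpos : 0 < A.card := card_pos.mpr ⟨u, hu⟩
  rw [card_erase_of_mem hu] at h4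
  have h5 : (J.card : ℝ) ≤ (A.card : ℝ) - 1 := by
    have h6 : J.card + 1 ≤ A.card := by omega
    have h7 : ((J.card + 1 : ℕ) : ℝ) ≤ (A.card : ℝ) := Nat.cast_le.mpr h6
    rw [Nat.cast_add, Nat.cast_one] at h7
    linarith
  rw [nsmul_eq_mul] at h3
  exact h3.trans (mul_le_mul_of_nonneg_right h5 hM)

theorem main {V : Type*} [Fintype V] [DecidableEq V] (E : Finset (V × V))
    (hsimple : ∀ p ∈ E, (p.2, p.1) ∉ E)
    (A : Finset V) (hA : A.Nonempty) (hB : ∃ b, b ∉ A)
    (hjoin : ∀ a ∈ A, ∀ b, b ∉ A → (a, b) ∈ E)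
    (L : Finset ℝ) (hL : L.card = E.card) (hpos : ∀ x ∈ L, 0 < x) :
    ∃ f : V × V → ℝ, Set.BijOn f (E : Set (V × V)) (L : Set ℝ) ∧
      Function.Injective fun v : V => (∑ p ∈ E.filter (fun p => p.1 = v), f p) -
        ∑ p ∈ E.filter (fun p => p.2 = v), f p := by
  classical
  have hloop : ∀ p ∈ E, p.1 ≠ p.2 := by
    intro p hp h
    apply hsimple p hp
    have : (p.2, p.1) = p := Prod.ext h.symm h
    rw [this]; exact hp
  obtain ⟨B, hBdef⟩ : ∃ B : Finset V, ∀ v, v ∈ B ↔ v ∉ A := ⟨Aᶜ, fun v => mem_compl⟩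
  obtain ⟨C, hC⟩ : ∃ C : Finset (V × V), ∀ p, p ∈ C ↔ p.1 ∈ A ∧ p.2 ∈ B :=
    ⟨A ×ˢ B, fun p => mem_product⟩
  have hCcard : C.card = A.card * B.card := by
    rw [← card_product]
    congr 1
    ext p
    rw [hC, mem_product]
  have hCE : C ⊆ E := by
    intro p hp
    rw [hC, hBdef] at hp
    exact hjoin p.1 hp.1 p.2 hp.2
  obtain ⟨I, hI⟩ : ∃ I : Finset (V × V), I = E \ C := ⟨_, rfl⟩
  have hEIC : E = I ∪ C := by
    rw [hI, sdiff_union_of_subset hCE]
  have hdis : Disjoint I C := by
    rw [hI]; exact sdiff_disjoint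
  have hIE : ∀ p ∈ I, p ∈ E := fun p hp => by
    rw [hI] at hp; exact (mem_sdiff.mp hp).1
  obtain ⟨k, hk⟩ : ∃ k, k = I.card := ⟨_, rfl⟩
  have hcard : E.card = k + A.card * B.card := by
    rw [hk, ← hCcard, ← card_union_of_disjoint hdis, ← hEIC]
  have hBne : 0 < B.card := by
    obtain ⟨b, hb⟩ := hB
    exact card_pos.mpr ⟨b, (hBdef b).mpr hb⟩
  have hAne : 0 < A.card := card_pos.mpr hA
  have hinner : ∀ p ∈ I, (p.1 ∈ A ∧ p.2 ∈ A) ∨ (p.1 ∈ B ∧ p.2 ∈ B) := by
    intro p hp
    rw [hI] at hp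
    have h0 := mem_sdiff.mp hp
    rw [hC, hBdef] at h0
    by_cases h1 : p.1 ∈ A
    · left
      refine ⟨h1, ?_⟩
      by_contra h2
      exact h0.2 ⟨h1, h2⟩
    · right
      refine ⟨(hBdef _).mpr h1, (hBdef _).mpr ?_⟩
      intro h2
      exact hsimple p h0.1 (hjoin p.2 h2 p.1 h1)
  -- the labels in increasing order
  obtain ⟨c, hcL, hcmono⟩ : ∃ c : ℕ → ℝ, (∀ n, n < E.card → c n ∈ L) ∧
      (∀ m n, m < n → n < E.card → c m < c n) := by
    refine ⟨fun n => if h : n < E.card then L.orderEmbOfFin hL ⟨n, h⟩ else 0, ?_, ?_⟩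
    · intro n hn
      simp only [hn, dite_true]
      exact L.orderEmbOfFin_mem hL _
    · intro m n hmn hn
      simp only [hn, hmn.trans hn, dite_true]
      exact (L.orderEmbOfFin hL).strictMono hmn
  have hcmono' : ∀ m n, m ≤ n → n < E.card → c m ≤ c n := by
    intro m n hmn hn
    rcases hmn.lt_or_eq with h | h
    · exact (hcmono m n h hn).le
    · rw [h]
  have hcinj : ∀ m n, m < E.card → n < E.card → c m = c n → m = n := by
    intro m n hm hn h
    rcases lt_trichotomy m n with h1 | h1 | h1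
    · exact absurd h (hcmono m n h1 hn).ne
    · exact h1
    · exact absurd h (hcmono n m h1 hm).ne'
  obtain ⟨g, hg1, hg2, -⟩ := rank I (fun _ => 0)
  rw [← hk] at hg1
  obtain ⟨X, hX⟩ : ∃ X : V → ℝ, ∀ v, X v = (∑ p ∈ I.filter (fun p => p.1 = v), c (g p)) -
        ∑ p ∈ I.filter (fun p => p.2 = v), c (g p) := ⟨_, fun _ => rfl⟩
  obtain ⟨r, hr1, hr2, hr3⟩ := rank A X
  obtain ⟨t, ht1, ht2, ht3⟩ := rank B (fun v => - X v)
  obtain ⟨idx, hfI, hfC⟩ : ∃ idx : V × V → ℕ, (∀ p ∈ I, idx p = g p) ∧
      (∀ p ∈ C, idx p = k + A.card * t p.2 + r p.1) :=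
    ⟨fun p => if p ∈ I then g p else k + A.card * t p.2 + r p.1, fun p hp => if_pos hp,
      fun p hp => if_neg (fun h => (disjoint_left.mp hdis h) hp)⟩
  have hmem : ∀ p ∈ E, p ∈ I ∨ p ∈ C := by
    intro p hp
    rw [hEIC] at hp
    exact mem_union.mp hp
  have hCr : ∀ u ∈ A, ∀ v ∈ B, k + A.card * t v + r u < E.card := by
    intro u hu v hv
    have h1 := hr1 u hu
    have h2 := ht1 v hv
    have : A.card * t v + A.card ≤ A.card * B.card := by
      calc A.card * t v + A.card = A.card * (t v + 1) := by ring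
        _ ≤ A.card * B.card := Nat.mul_le_mul_left _ h2
    omega
  have hlt : ∀ p ∈ E, idx p < E.card := by
    intro p hp
    rcases hmem p hp with h | h
    · rw [hfI p h]
      have := hg1 p h
      omega
    · rw [hfC p h]
      rw [hC] at h
      exact hCr p.1 h.1 p.2 h.2
  have hinj : ∀ p ∈ E, ∀ q ∈ E, idx p = idx q → p = q := by
    intro p hp q hq h
    rcases hmem p hp with h1 | h1 <;> rcases hmem q hq with h2 | h2
    · rw [hfI p h1, hfI q h2] at h
      exact hg2 p h1 q h2 h
    · exfalso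
      have e1 := hg1 p h1
      rw [hfI p h1, hfC q h2] at h
      omega
    · exfalso
      have e1 := hg1 q h2
      rw [hfC p h1, hfI q h2] at h
      omega
    · rw [hfC p h1, hfC q h2] at h
      rw [hC] at h1 h2
      have e1 := hr1 p.1 h1.1
      have e2 := hr1 q.1 h2.1
      have h' : r p.1 + A.card * t p.2 = r q.1 + A.card * t q.2 := by omega
      have m1 : r p.1 = r q.1 := by
        have := congrArg (· % A.card) h'
        simpa [Nat.add_mul_mod_self_left, Nat.mod_eq_of_lt e1, Nat.mod_eq_of_lt e2] using this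
      have m2 : t p.2 = t q.2 := by
        rw [m1] at h'
        exact Nat.eq_of_mul_eq_mul_left hAne (Nat.add_left_cancel h')
      exact Prod.ext (hr2 _ h1.1 _ h2.1 m1) (ht2 _ h1.2 _ h2.2 m2)
  refine ⟨fun p => c (idx p), ⟨?_, ?_, ?_⟩, ?_⟩
  · intro p hp
    exact hcL _ (hlt p hp)
  · intro p hp q hq h
    exact hinj p hp q hq (hcinj _ _ (hlt p hp) (hlt q hq) h)
  · intro x hx
    have himg : E.image (fun p => c (idx p)) = L := by
      apply Finset.eq_of_subset_of_card_le
      · intro y hy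
        obtain ⟨p, hp, rfl⟩ := mem_image.mp hy
        exact hcL _ (hlt p hp)
      · rw [card_image_of_injOn (fun p hp q hq h =>
          hinj p hp q hq (hcinj _ _ (hlt p hp) (hlt q hq) h)), hL]
    have : x ∈ E.image (fun p => c (idx p)) := by
      rw [himg]; exact hx
    obtain ⟨p, hp, rfl⟩ := mem_image.mp this
    exact ⟨p, hp, rfl⟩
  · -- the sums
    have hA1 : ∀ v ∈ A, ∑ p ∈ C.filter (fun p => p.1 = v), c (idx p) =
        ∑ w ∈ B, c (k + A.card * t w + r v) := by
      intro v hv
      have : C.filter (fun p => p.1 = v) = B.image (fun w => (v, w)) := by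
        ext p
        rw [mem_filter, hC, mem_image]
        constructor
        · rintro ⟨⟨h1, h2⟩, h3⟩
          exact ⟨p.2, h2, by rw [← h3]⟩
        · rintro ⟨w, hw, rfl⟩
          exact ⟨⟨hv, hw⟩, rfl⟩
      rw [this, sum_image (fun a _ b _ h => (Prod.ext_iff.mp h).2)]
      apply sum_congr rfl
      intro w hw
      rw [hfC (v, w) ((hC _).mpr ⟨hv, hw⟩)]
    have hA2 : ∀ v ∈ A, ∑ p ∈ C.filter (fun p => p.2 = v), c (idx p) = 0 := by
      intro v hv
      rw [filter_eq_empty_iff.mpr, sum_empty]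
      intro p hp h
      rw [hC, hBdef, h] at hp
      exact hp.2 hv
    have hB2 : ∀ v ∈ B, ∑ p ∈ C.filter (fun p => p.2 = v), c (idx p) =
        ∑ w ∈ A, c (k + A.card * t v + r w) := by
      intro v hv
      have : C.filter (fun p => p.2 = v) = A.image (fun w => (w, v)) := by
        ext p
        rw [mem_filter, hC, mem_image]
        constructor
        · rintro ⟨⟨h1, h2⟩, h3⟩
          exact ⟨p.1, h1, by rw [← h3]⟩
        · rintro ⟨w, hw, rfl⟩
          exact ⟨⟨hw, hv⟩, rfl⟩
      rw [this, sum_image (fun a _ b _ h => (Prod.ext_iff.mp h).1)]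
      apply sum_congr rfl
      intro w hw
      rw [hfC (w, v) ((hC _).mpr ⟨hw, hv⟩)]
    have hB1 : ∀ v ∈ B, ∑ p ∈ C.filter (fun p => p.1 = v), c (idx p) = 0 := by
      intro v hv
      rw [filter_eq_empty_iff.mpr, sum_empty]
      intro p hp h
      rw [hC, h] at hp
      exact (hBdef v).mp hv hp.1
    obtain ⟨S, hS⟩ : ∃ S : V → ℝ, S = fun v : V =>
        (∑ p ∈ E.filter (fun p => p.1 = v), c (idx p)) -
        ∑ p ∈ E.filter (fun p => p.2 = v), c (idx p) := ⟨_, rfl⟩
    have hsplit : ∀ v, S v = X v + (∑ p ∈ C.filter (fun p => p.1 = v), c (idx p) -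
        ∑ p ∈ C.filter (fun p => p.2 = v), c (idx p)) := by
      intro v
      have hu1 : E.filter (fun p => p.1 = v) =
          I.filter (fun p => p.1 = v) ∪ C.filter (fun p => p.1 = v) := by
        rw [← filter_union, ← hEIC]
      have hu2 : E.filter (fun p => p.2 = v) =
          I.filter (fun p => p.2 = v) ∪ C.filter (fun p => p.2 = v) := by
        rw [← filter_union, ← hEIC]
      rw [hS, hX]
      simp only
      rw [hu1, hu2, sum_union (disjoint_filter_filter hdis),
        sum_union (disjoint_filter_filter hdis)]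
      have e1 : ∑ p ∈ I.filter (fun p => p.1 = v), c (idx p) =
          ∑ p ∈ I.filter (fun p => p.1 = v), c (g p) :=
        sum_congr rfl (fun p hp => by rw [hfI p (mem_filter.mp hp).1])
      have e2 : ∑ p ∈ I.filter (fun p => p.2 = v), c (idx p) =
          ∑ p ∈ I.filter (fun p => p.2 = v), c (g p) :=
        sum_congr rfl (fun p hp => by rw [hfI p (mem_filter.mp hp).1])
      rw [e1, e2]
      ring
    have hSA : ∀ v ∈ A, S v = X v + ∑ w ∈ B, c (k + A.card * t w + r v) := by
      intro v hv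
      rw [hsplit, hA1 v hv, hA2 v hv, sub_zero]
    have hSB : ∀ v ∈ B, S v = X v - ∑ w ∈ A, c (k + A.card * t v + r w) := by
      intro v hv
      rw [hsplit, hB1 v hv, hB2 v hv, zero_sub, sub_eq_add_neg]
    have hAB : ∀ v, v ∈ A ∨ v ∈ B := by
      intro v
      by_cases h : v ∈ A
      · exact Or.inl h
      · exact Or.inr ((hBdef v).mpr h)
    have hkE : k < E.card := by
      rw [hcard]
      have := Nat.mul_pos hAne hBne
      omega
    have hμ : 0 < c k := hpos _ (hcL k hkE)
    have hgμ : ∀ p ∈ I, c (g p) ≤ c k := fun p hp => hcmono' _ _ (hg1 p hp).le hkE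
    have hg0 : ∀ p ∈ I, 0 ≤ c (g p) := fun p hp =>
      (hpos _ (hcL _ ((hg1 p hp).trans hkE))).le
    have hcross : ∀ u ∈ A, ∀ v ∈ B, S v < S u := by
      intro u hu v hv
      rw [hSA u hu, hSB v hv]
      have hXu : -(((A.card : ℝ) - 1) * c k) ≤ X u := by
        have h1 : (0 : ℝ) ≤ ∑ p ∈ I.filter (fun p => p.1 = u), c (g p) :=
          sum_nonneg (fun p hp => hg0 p (mem_filter.mp hp).1)
        have h2 : ∑ p ∈ I.filter (fun p => p.2 = u), c (g p) ≤ ((A.card : ℝ) - 1) * c k := by
          apply sum_le _ A u hu (fun p => p.1) _ _ _ _ hμ.le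
          · intro p hp
            exact hgμ p (mem_filter.mp hp).1
          · intro p hp
            have hp := mem_filter.mp hp
            rcases hinner p hp.1 with h | h
            · exact ⟨h.1, fun h5 => hloop p (hIE p hp.1) (h5.trans hp.2.symm)⟩
            · exfalso
              rw [hp.2] at h
              exact (hBdef u).mp h.2 hu
          · intro p hp q hq h
            exact Prod.ext h ((mem_filter.mp hp).2.trans (mem_filter.mp hq).2.symm)
        rw [hX]
        linarith
      have hXv : X v ≤ ((B.card : ℝ) - 1) * c k := by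
        have h1 : (0 : ℝ) ≤ ∑ p ∈ I.filter (fun p => p.2 = v), c (g p) :=
          sum_nonneg (fun p hp => hg0 p (mem_filter.mp hp).1)
        have h2 : ∑ p ∈ I.filter (fun p => p.1 = v), c (g p) ≤ ((B.card : ℝ) - 1) * c k := by
          apply sum_le _ B v hv (fun p => p.2) _ _ _ _ hμ.le
          · intro p hp
            exact hgμ p (mem_filter.mp hp).1
          · intro p hp
            have hp := mem_filter.mp hp
            rcases hinner p hp.1 with h | h
            · exfalso
              rw [hp.2] at h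
              exact (hBdef v).mp hv h.1
            · exact ⟨h.2, fun h5 => hloop p (hIE p hp.1) (hp.2.trans h5.symm)⟩
          · intro p hp q hq h
            exact Prod.ext ((mem_filter.mp hp).2.trans (mem_filter.mp hq).2.symm) h
        rw [hX]
        linarith
      have h3 : (B.card : ℝ) * c k ≤ ∑ w ∈ B, c (k + A.card * t w + r u) := by
        have := card_nsmul_le_sum B (fun w => c (k + A.card * t w + r u)) (c k)
          (fun w hw => hcmono' _ _ (by omega) (hCr u hu w hw))
        rwa [nsmul_eq_mul] at this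
      have h4 : (A.card : ℝ) * c k ≤ ∑ w ∈ A, c (k + A.card * t v + r w) := by
        have := card_nsmul_le_sum A (fun w => c (k + A.card * t v + r w)) (c k)
          (fun w hw => hcmono' _ _ (by omega) (hCr w hw v hv))
        rwa [nsmul_eq_mul] at this
      nlinarith
    have hAlt : ∀ u ∈ A, ∀ v ∈ A, r u < r v → S u < S v := by
      intro u hu v hv h
      rw [hSA u hu, hSA v hv]
      have h1 := hr3 u hu v hv h
      have h2 : ∑ w ∈ B, c (k + A.card * t w + r u) < ∑ w ∈ B, c (k + A.card * t w + r v) :=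
        sum_lt_sum_of_nonempty (card_pos.mp hBne)
          (fun w hw => hcmono _ _ (by omega) (hCr v hv w hw))
      linarith
    have hBlt : ∀ u ∈ B, ∀ v ∈ B, t u < t v → S v < S u := by
      intro u hu v hv h
      rw [hSB u hu, hSB v hv]
      have h1 := ht3 u hu v hv h
      have h2 : ∑ w ∈ A, c (k + A.card * t u + r w) < ∑ w ∈ A, c (k + A.card * t v + r w) :=
        sum_lt_sum_of_nonempty (card_pos.mp hAne) (fun w hw => hcmono _ _ (by
          have : A.card * t u < A.card * t v := Nat.mul_lt_mul_of_pos_left h hAne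
          omega) (hCr w hw v hv))
      linarith
    rw [← hS]
    intro u v huv
    by_contra hne
    rcases hAB u with hu | hu <;> rcases hAB v with hv | hv
    · rcases lt_or_gt_of_ne (fun h => hne (hr2 u hu v hv h)) with h | h
      · exact absurd huv (hAlt u hu v hv h).ne
      · exact absurd huv (hAlt v hv u hu h).ne'
    · exact absurd huv (hcross u hu v hv).ne'
    · exact absurd huv (hcross v hv u hu).ne
    · rcases lt_or_gt_of_ne (fun h => hne (ht2 u hu v hv h)) with h | h
      · exact absurd huv (hBlt u hu v hv h).ne'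
      · exact absurd huv (hBlt v hv u hu h).ne

end Pool.Agent.Lib.MP_076764_co.Join
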